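import Mathlib
import Pool.Agent.Helper772_Chen.CurveEnd

set_option autoImplicit false

/-!
# Biharmonic hypersurfaces of Euclidean space are minimal

Every biharmonic hypersurface (immersion of an open subset of `R^n` into `R^(n+1)`) is minimal.
No condition on the number of principal curvatures, on completeness or on properness.
-/

namespace Pool.Agent.Results.MP_3248c9_gt.Hypersurfaces

/-- The `i`-th partial derivative of `u` at `x`. -/
noncomputable def pd {n m : ℕ} (i : Fin n)
    (u : EuclideanSpace ℝ (Fin n) → EuclideanSpace ℝ (Fin m))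
    (x : EuclideanSpace ℝ (Fin n)) : EuclideanSpace ℝ (Fin m) :=
  fderiv ℝ u x (EuclideanSpace.single i (1 : ℝ))

/-- The metric induced by `f`: the matrix of inner products of its partial derivatives. -/
noncomputable def metric {n m : ℕ}
    (f : EuclideanSpace ℝ (Fin n) → EuclideanSpace ℝ (Fin m))
    (x : EuclideanSpace ℝ (Fin n)) : Matrix (Fin n) (Fin n) ℝ :=
  Matrix.of fun i j => inner ℝ (pd i f x) (pd j f x)

/-- The Laplace-Beltrami operator of the metric induced by `f`, applied componentwise to `u`: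
`(det g)^(-1/2) ∑ i, ∂_i ((det g)^(1/2) ∑ j, g^{ij} ∂_j u)`. -/
noncomputable def lap {n m : ℕ}
    (f u : EuclideanSpace ℝ (Fin n) → EuclideanSpace ℝ (Fin m))
    (x : EuclideanSpace ℝ (Fin n)) : EuclideanSpace ℝ (Fin m) :=
  (Real.sqrt (metric f x).det)⁻¹ •
    ∑ i, pd i (fun y => Real.sqrt (metric f y).det • ∑ j, (metric f y)⁻¹ i j • pd j u y) x

/-- Chen's conjecture for hypersurfaces, in every dimension: a smooth immersion `f` of an open
subset of `R^n` into `R^(n+1)` with `Δ(Δ f) = 0` satisfies `Δ f = 0`. -/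
theorem result :
    ∀ (n : ℕ) (U : Set (EuclideanSpace ℝ (Fin n)))
      (f : EuclideanSpace ℝ (Fin n) → EuclideanSpace ℝ (Fin (n + 1))),
      IsOpen U →
      ContDiffOn ℝ ((⊤ : ℕ∞) : WithTop ℕ∞) f U →
      (∀ x ∈ U, Function.Injective (fderiv ℝ f x)) →
      (∀ x ∈ U, lap f (lap f f) x = 0) →
      ∀ x ∈ U, lap f f x = 0 := by
  intro n U f hU hf hinj hLL x hx
  obtain ⟨B, hBU, hBf, hBτ⟩ :=
    Helper772Chen.exists_base n (n + 1) U f hU hf hinj (metric f) (fun _ _ _ => rfl) (lap f)
      (fun _ _ => rfl) hLL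
  by_contra hne
  have hx0 : x ∈ B.V0 := by
    refine ⟨by rw [hBU]; exact hx, ?_⟩
    change B.τ x ∈ ({0} : Set _)ᶜ
    rw [hBτ]
    exact hne
  obtain ⟨C, hC⟩ := Helper772Chen.exists_core B hx0
  exact C.false_of_nonempty hC

end Pool.Agent.Results.MP_3248c9_gt.Hypersurfaces
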